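import Pool.Agent.helper81.PJ.Spec

/-!
# pj:SH2  exact shifts along the multiples of a fixed number
-/

set_option autoImplicit false

open Finset

namespace Pool.Agent.PJ

open Pool.Agent.PY2

theorem SH2_unit {p : ℕ} [Fact p.Prime] (χ : MulChar (ZMod p) ℂ) {x : ZMod p} (hx : x ≠ 0) :
    χ x * (starRingEnd ℂ) (χ x) = 1 := by
  have h : ‖χ x‖ = 1 := by
    have := DirichletCharacter.unit_norm_eq_one (n := p) χ (Units.mk0 x hx)
    simpa using this
  rw [Complex.mul_conj, Complex.normSq_eq_norm_sq, h]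
  simp

theorem SH2_term {p : ℕ} [Fact p.Prime] (χ : MulChar (ZMod p) ℂ) (u : ℕ)
    (hu : (u : ZMod p) ≠ 0) (b b' : ZMod p) (i v : ℕ) :
    χ ((i : ZMod p) + b) * (starRingEnd ℂ) (χ ((i : ZMod p) + b')) =
      c2 χ ((((v * u + i : ℕ) : ZMod p) + b) / (u : ZMod p))
        ((((v * u + i : ℕ) : ZMod p) + b') / (u : ZMod p)) v := by
  have e1 : ∀ d : ZMod p, (i : ZMod p) + d = (u : ZMod p) *
      ((((v * u + i : ℕ) : ZMod p) + d) / (u : ZMod p) - (v : ZMod p)) := by
    intro d
    rw [mul_sub, mul_div_cancel₀ _ hu]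
    push_cast
    ring
  rw [e1 b, e1 b', map_mul, map_mul, map_mul]
  unfold c2
  have := SH2_unit χ hu
  linear_combination (χ ((((v * u + i : ℕ) : ZMod p) + b) / (u : ZMod p) -
      (v : ZMod p)) * (starRingEnd ℂ) (χ ((((v * u + i : ℕ) : ZMod p) + b') /
      (u : ZMod p) - (v : ZMod p)))) * this

/-- Exact shifts. -/
theorem SH2 (hMAX : MAX_stmt) : SH2_stmt := by
  intro p _ χ k N n u b b' hk h1 hp hN
  have hu : (u : ZMod p) ≠ 0 := by
    intro h0
    rw [ZMod.natCast_eq_zero_iff] at h0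
    exact absurd (Nat.le_of_dvd (by omega) h0) (by omega)
  have key : ∀ v ∈ range (2 ^ n), Gc χ N b b' = ∑ m ∈ range (2 * N),
      if v * u ≤ m ∧ m < N + v * u then
        c2 χ (((m : ZMod p) + b) / (u : ZMod p)) (((m : ZMod p) + b') / (u : ZMod p)) v else 0 := by
    intro v hv
    have hv' : v * u ≤ N := by
      have h2 : v ≤ 2 ^ n := (mem_range.1 hv).le
      exact (Nat.mul_le_mul_right u h2).trans hN
    rw [← sum_filter]
    have hset : (range (2 * N)).filter (fun m => v * u ≤ m ∧ m < N + v * u) =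
        Ico (v * u) (N + v * u) := by
      ext m
      rw [mem_filter, mem_range, mem_Ico]
      constructor
      · exact fun hm => hm.2
      · exact fun hm => ⟨by omega, hm⟩
    rw [hset, sum_Ico_eq_sum_range, Nat.add_sub_cancel]
    unfold Gc
    exact sum_congr rfl fun i _ => SH2_term χ u hu b b' i v
  have hsum : ((2 : ℂ) ^ n) * Gc χ N b b' = ∑ m ∈ range (2 * N),
      ∑ v ∈ (range (2 ^ n)).filter (fun v => v * u ≤ m ∧ m < N + v * u),
        c2 χ (((m : ZMod p) + b) / (u : ZMod p)) (((m : ZMod p) + b') / (u : ZMod p)) v := by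
    have e : ((2 : ℂ) ^ n) * Gc χ N b b' = ∑ v ∈ range (2 ^ n), Gc χ N b b' := by
      rw [sum_const, card_range, nsmul_eq_mul]
      push_cast
      rfl
    rw [e, sum_congr rfl key, sum_comm]
    exact sum_congr rfl fun m _ => (sum_filter _ _).symm
  have hnorm : (2 : ℝ) ^ n * ‖Gc χ N b b'‖ = ‖((2 : ℂ) ^ n) * Gc χ N b b'‖ := by
    rw [norm_mul, norm_pow]
    norm_num
  rw [hnorm, hsum]
  refine (norm_sum_le _ _).trans (sum_le_sum fun m _ => ?_)
  refine (hMAX k n _ hk).2 _ (filter_subset _ _) ?_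
  intro x hx w hw v huv hvw
  rw [mem_filter, mem_range] at hx hw ⊢
  have a1 : x * u ≤ v * u := Nat.mul_le_mul_right u huv
  have a2 : v * u ≤ w * u := Nat.mul_le_mul_right u hvw
  exact ⟨by omega, by omega, by omega⟩

end Pool.Agent.PJ
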